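import Pool.Agent.H8.AV3.Stmts

/-!
# Three-descent: CPR and SCL
-/

set_option autoImplicit false

namespace Pool.Agent.H42.AV3

open Polynomial Matrix Pool.AVR Pool.AV3

theorem cpr_thm : Pool.AV3.CPRStmt := by
  intro R _ a b c u v w h e
  have h1 : IsCoprime w (v ^ 2) := h.pow_right
  have h2 : v ^ 2 = u ^ 3 + w * (a * u ^ 2 * w + b * u * w ^ 3 + c * w ^ 5) := by
    rw [e]; ring
  rw [h2] at h1
  have h3 : IsCoprime w (u ^ 3) := IsCoprime.of_add_mul_left_right h1
  have h4 : IsCoprime w u := (IsCoprime.pow_right_iff (by norm_num)).mp h3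
  exact h4.pow_left

theorem scl_thm : Pool.AV3.SCLStmt := by
  intro K _ a b x y t ht
  have hd : (Matrix.diagonal ![t, t ^ 2, 1] : Matrix (Fin 3) (Fin 3) K).det = t ^ 3 := by
    rw [Matrix.det_diagonal, Fin.prod_univ_three]
    simp
    ring
  refine ⟨?_, ?_⟩
  · rw [hd]; exact (IsUnit.mk0 t ht).pow 3
  · rw [hd]
    funext i
    fin_cases i <;>
    simp [tsub, tev, tder, FP, Matrix.diagonal] <;> field_simp

end Pool.Agent.H42.AV3
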