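import Pool.Agent.H8.AV3.Stmts

/-!
# Three-descent: UNQ
-/

set_option autoImplicit false

namespace Pool.Agent.H42.AV3

open Polynomial Matrix Pool.AVR Pool.AV3

theorem unq_thm : Pool.AV3.UNQStmt := by
  intro K _ h2 a b x y a' b' x' y' s g hE hg
  obtain ⟨hu, he⟩ := hE
  have hd0 : g.det ≠ 0 := hu.ne_zero
  have g01 : g 0 1 = 0 := by
    have := congrFun hg 0
    simpa [mulVec3, e1] using this
  have g11 : g 1 1 = s := by
    have := congrFun hg 1
    simpa [mulVec3, e1] using this
  have g21 : g 2 1 = 0 := by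
    have := congrFun hg 2
    simpa [mulVec3, e1] using this
  have hdet : g.det = s * (g 0 0 * g 2 2 - g 0 2 * g 2 0) := by
    rw [Matrix.det_fin_three, g01, g11, g21]; ring
  have hs : s ≠ 0 := by
    rintro rfl
    apply hd0; rw [hdet]; ring
  have key : ∀ i, tsub (FP a b x y) g i = g.det * FP a' b' x' y' i := by
    intro i; rw [he]; rfl
  have k0 := key 0
  have k1 := key 1
  have k2 := key 2
  have k3 := key 3
  have k4 := key 4
  have k5 := key 5
  have k6 := key 6
  have k7 := key 7
  have k8 := key 8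
  have k9 := key 9
  simp [tsub, tev, tder, FP, g01, g11, g21] at k0 k1 k2 k3 k4 k5 k6 k7 k8 k9
  have g20 : g 2 0 = 0 := k3.resolve_left hs
  have g22n : g 2 2 ≠ 0 := by
    intro h; apply hd0; rw [← k7, h]; ring
  have g00 : g 0 0 = s := by
    have h : (s * g 2 2) * (g 0 0 - s) = 0 := by
      have := hdet
      rw [g20] at this
      linear_combination -k7 - this
    rcases mul_eq_zero.mp h with h | h
    · exact absurd h (mul_ne_zero hs g22n)
    · exact sub_eq_zero.mp h
  rw [g20, g00] at k1
  have g22 : g 2 2 = s := by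
    have h : (s ^ 2) * (g 2 2 - s) = 0 := by
      linear_combination k7 - k1
    rcases mul_eq_zero.mp h with h | h
    · exact absurd h (pow_ne_zero 2 hs)
    · exact sub_eq_zero.mp h
  have hdd : g.det = s ^ 3 := by rw [← k7, g22]; ring
  have g10 : g 1 0 = 0 := by
    rw [g20, g00] at k0
    have h : (s ^ 2) * g 1 0 = 0 := by linear_combination k0
    exact (mul_eq_zero.mp h).resolve_left (pow_ne_zero 2 hs)
  have g02 : g 0 2 = 0 := by
    rw [g20, g00, g10, g22] at k4
    have h : (2 * s ^ 2) * g 0 2 = 0 := by linear_combination k4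
    exact (mul_eq_zero.mp h).resolve_left (mul_ne_zero h2 (pow_ne_zero 2 hs))
  rw [g20, g00, g10, g02, g22, hdd] at k2
  rw [g20, g00, g10, g02, g22, hdd] at k5
  rw [g02, g22, hdd] at k8
  rw [g02, g22, hdd] at k9
  have hη : g 1 2 = s * (g 1 2 / s) := by field_simp
  obtain ⟨η, hη'⟩ : ∃ η, η = g 1 2 / s := ⟨_, rfl⟩
  rw [← hη'] at hη
  rw [hη] at k2 k8 k9
  have s3 : s ^ 3 ≠ 0 := pow_ne_zero 3 hs
  have ex : x' = x - η := by
    apply mul_left_cancel₀ s3
    linear_combination k2
  have ey : y' = y := by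
    apply mul_left_cancel₀ (mul_ne_zero h2 s3)
    linear_combination k5
  have ea : a' = a + 3 * η := by
    apply mul_left_cancel₀ s3
    rw [ex] at k8
    linear_combination k8
  refine ⟨s, η, hs, ?_, ex, ey, ea, ?_⟩
  · funext i j
    fin_cases i <;> fin_cases j <;>
    simp [uni, g00, g01, g02, g10, g11, g20, g21, g22, hη]
  · apply mul_left_cancel₀ s3
    rw [ex, ea] at k9
    linear_combination k9

end Pool.Agent.H42.AV3
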